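import Pool.Agent.H43.PL.M06
import Pool.Agent.H43.PL.M07

/-!
# VKT (H97/VK of helper97 with the parameter `T0.t` in place of `9/10`, `t1` in place of `19/20`) Exp: saving every power of `log x` for `K ≥ exp((log x)^{9/10})`

Proof.  Let `L = log x`, `M0 = K / L^{A+2}`.  The terms `n ≤ M0` contribute at most `K / L^{A+2} + 1`.  Cut `(M0, b]` into `≤ (A+2) log L/log 2 + 2 ≤ L` intervals
`(a', b'] ⊂ (M, 2M]`, `M ≥ M0/2 ≥ exp(L^{9/10}/2)`, `M ≤ K`.
Block with `|t| ≤ M^{1/3}`: `EHB.low_sum`: `≤ 4 M/|t| + 7 M^{1/3}`.  Block with `M^{1/3} ≤ |t| ≤ M^{12}`: `EHB.vdc 12`: `≤ C0 M^{1-δ0}`.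
Block with `|t| > M^{12}`: let `κ = ⌈log|t|/(4 log M)⌉₊ ≥ 4` (as `|t| > M^{12}` the quotient is `> 3`); then `M^{4κ-4} ≤ |t| ≤ M^{4κ}`, `κ ≤ 3L/(4·L^{9/10}/2) + 1 ≤ 3 L^{1/10}`,
and `(Cκ)^C ≤ L^{C} ≤ M`: `vexp`: `≤ C M exp(-c L^{9/10}/(2·9 L^{2/10})) ≤ C M exp(-c' L^{7/10}) ≤ M/L^{A+2}` for large `x`.
The `M = M0 2^i` sum to at most `4K`; so the total is `≤ 16 K/|t| + K/L^A`.
-/

set_option autoImplicit false

namespace Pool.Agent.H76.VKT

open Finset
open Pool.Agent.H91.PK (ee)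

private theorem Exp_triv (a b : ℕ) (β t : ℝ) :
    ‖∑ n ∈ Ioc a b, ee (t * Real.log (n + β))‖ ≤ b := by
  have h1 : ‖∑ n ∈ Ioc a b, ee (t * Real.log (n + β))‖ ≤ ∑ n ∈ Ioc a b, (1 : ℝ) := by
    refine (norm_sum_le _ _).trans (Finset.sum_le_sum fun n _ => ?_)
    rw [Pool.Agent.H91.PK.LSa_norm_ee]
  refine h1.trans ?_
  rw [Finset.sum_const, Nat.card_Ioc, nsmul_eq_mul, mul_one]
  exact_mod_cast Nat.sub_le b a

/-- dyadic induction -/
private theorem Exp_all (T E β t : ℝ) (hT : 3 ≤ T) (hE : 0 ≤ E)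
    (h : ∀ M a b : ℕ, T / 2 ≤ M → M ≤ a → b ≤ 2 * M →
      ‖∑ n ∈ Ioc a b, ee (t * Real.log (n + β))‖ ≤ E * M) (b : ℕ) :
    ∀ a : ℕ, ‖∑ n ∈ Ioc a b, ee (t * Real.log (n + β))‖ ≤ T + 2 * E * b := by
  induction b using Nat.strong_induction_on with
  | _ b ih =>
    intro a
    have hG : 0 ≤ 2 * E * (b : ℝ) := by positivity
    rcases le_or_gt (b : ℝ) T with hbT | hbT
    · have := Exp_triv a b β t
      linarith
    · have hb3 : 3 < b := by
        have : (3 : ℝ) < b := by linarith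
        exact_mod_cast this
      set M := (b + 1) / 2 with hMdef
      have hMb : M < b := by omega
      have hM1 : 1 ≤ M := by omega
      have hb2 : b ≤ 2 * M := by omega
      have h3M : 3 * M ≤ 2 * b := by omega
      have hMr : (M : ℝ) ≤ 2 / 3 * b := by
        have : (3 : ℝ) * M ≤ 2 * b := by exact_mod_cast h3M
        linarith only [this]
      have hMT : T / 2 ≤ (M : ℝ) := by
        have : (b : ℝ) ≤ 2 * M := by exact_mod_cast hb2
        linarith only [hbT, this]
      have hEM : E * (M : ℝ) ≤ E * (2 / 3 * b) := mul_le_mul_of_nonneg_left hMr hE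
      rcases le_or_gt M a with haM | haM
      · have h := h M a b hMT haM hb2
        nlinarith only [hT, hG, hEM, h]
      · have h := h M M b hMT le_rfl hb2
        have h' := ih M hMb a
        have e : ∑ n ∈ Ioc a b, ee (t * Real.log (n + β)) =
            ∑ n ∈ Ioc a M, ee (t * Real.log (n + β)) +
              ∑ n ∈ Ioc M b, ee (t * Real.log (n + β)) :=
          (Finset.sum_Ioc_consecutive _ haM.le hMb.le).symm
        rw [e]
        have := norm_add_le (∑ n ∈ Ioc a M, ee (t * Real.log (n + β)))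
          (∑ n ∈ Ioc M b, ee (t * Real.log (n + β)))
        nlinarith only [hEM, h, h', this]

/-- exponentials beat powers -/
private theorem Exp_ev (D s c e : ℝ) (hc : 0 < c) (he : 0 < e) :
    ∀ᶠ L : ℝ in Filter.atTop, D * L ^ s ≤ Real.exp (c * L ^ e) := by
  have h1 := isLittleO_rpow_exp_pos_mul_atTop (s / e) hc
  have hD : 0 < 1 / (|D| + 1) := by positivity
  have h2 := h1.def hD
  have h3 := (tendsto_rpow_atTop he).eventually h2
  filter_upwards [h3, Filter.eventually_ge_atTop 1] with L hL hL1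
  have hL0 : 0 ≤ L := by linarith
  rw [← Real.rpow_mul hL0] at hL
  have e1 : e * (s / e) = s := by field_simp
  rw [e1, Real.norm_of_nonneg (Real.rpow_nonneg hL0 _), Real.norm_of_nonneg (Real.exp_pos _).le,
    div_mul_eq_mul_div, le_div_iff₀ (by positivity), one_mul] at hL
  have h0 : 0 ≤ L ^ s := Real.rpow_nonneg hL0 _
  calc D * L ^ s ≤ (|D| + 1) * L ^ s :=
        mul_le_mul_of_nonneg_right (by linarith [le_abs_self D]) h0
    _ = L ^ s * (|D| + 1) := mul_comm _ _
    _ ≤ _ := hL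

theorem vk_exp_h [T0] (h_vexp : Pool.Agent.H97.VK.vexp_P)  (A : ℕ) : ∃ x0 : ℕ, ∀ x : ℕ, x0 ≤ x → ∀ (K a b : ℕ) (β t : ℝ),
    Real.exp (Real.log x ^ T0.t) ≤ K → K ≤ x → b ≤ K → 0 ≤ β → β ≤ 1 →
    1 ≤ |t| → |t| ≤ (x : ℝ) ^ (3 : ℕ) →
    ‖∑ n ∈ Ioc a b, ee (t * Real.log (n + β))‖ ≤ K * (100 / |t| + 1 / Real.log x ^ A) := by
  have hlo := T0.lo
  have hhi := T0.hi
  obtain ⟨c, C, hc, hC, hve⟩ := h_vexp
  obtain ⟨δ0, C0, hδ0, hδ01, hC0, hv⟩ := Pool.Agent.H76.EHB.vdc 12
  have key : ∀ᶠ L : ℝ in Filter.atTop,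
      1 ≤ L ∧ 4 * L ^ (A : ℝ) ≤ Real.exp (1 / 2 * L ^ T0.t) ∧
      28 * L ^ (A : ℝ) ≤ Real.exp (1 / 3 * L ^ T0.t) ∧
      4 * C0 * L ^ (A : ℝ) ≤ Real.exp (δ0 / 2 * L ^ T0.t) ∧
      (3 * C) ^ C * L ^ (C * (1 - T0.t)) ≤ Real.exp (1 / 2 * L ^ T0.t) ∧
      4 * C * L ^ (A : ℝ) ≤ Real.exp (c / 18 * L ^ (3 * T0.t - 2)) := by
    filter_upwards [Filter.eventually_ge_atTop 1,
      Exp_ev 4 A (1 / 2) T0.t (by norm_num) (by linarith),
      Exp_ev 28 A (1 / 3) T0.t (by norm_num) (by linarith),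
      Exp_ev (4 * C0) A (δ0 / 2) T0.t (by positivity) (by linarith),
      Exp_ev ((3 * C) ^ C) (C * (1 - T0.t)) (1 / 2) T0.t (by norm_num) (by linarith),
      Exp_ev (4 * C) A (c / 18) (3 * T0.t - 2) (by positivity) (by linarith only [hlo])] with L h1 h2 h3 h4 h5 h6
    exact ⟨h1, h2, h3, h4, h5, h6⟩
  have key2 := (Real.tendsto_log_atTop.comp tendsto_natCast_atTop_atTop).eventually key
  obtain ⟨x0, hx0⟩ := Filter.eventually_atTop.1 key2
  refine ⟨x0, ?_⟩
  intro x hx K a b β t hK hKx hb hβ hβ1 ht1 ht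
  obtain ⟨hL1, k1, k2, k3, k4, k5⟩ := hx0 x hx
  simp only [Function.comp_apply] at hL1 k1 k2 k3 k4 k5
  set L := Real.log x with hLdef
  rw [Real.rpow_natCast] at k1 k2 k3 k5
  have hL0 : 0 < L := by linarith only [hlo, hhi, hL1]
  have hLA : 0 < L ^ A := by positivity
  have hxpos : (0 : ℝ) < x := by
    rcases Nat.eq_zero_or_pos x with h | h
    · rw [hLdef, h] at hL0
      simp at hL0
    · exact_mod_cast h
  have ht0 : 0 < |t| := by linarith only [hlo, hhi, ht1]
  set Q := L ^ T0.t with hQ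
  have hQ1 : 1 ≤ Q := Real.one_le_rpow hL1 (by linarith only [hlo, hhi])
  have hK0 : (0 : ℝ) < K := lt_of_lt_of_le (Real.exp_pos _) hK
  have hKe : Real.exp (Q / 2) * (4 * L ^ A) ≤ K := by
    calc Real.exp (Q / 2) * (4 * L ^ A) ≤ Real.exp (Q / 2) * Real.exp (1 / 2 * Q) :=
          mul_le_mul_of_nonneg_left k1 (Real.exp_pos _).le
      _ = Real.exp Q := by rw [← Real.exp_add]; congr 1; ring
      _ ≤ K := hK
  set T : ℝ := K / (2 * L ^ A) with hT
  have hT2 : Real.exp (Q / 2) ≤ T / 2 := by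
    rw [hT, div_div, le_div_iff₀ (by positivity)]
    calc Real.exp (Q / 2) * (2 * L ^ A * 2) = Real.exp (Q / 2) * (4 * L ^ A) := by ring
      _ ≤ K := hKe
  have hT3 : 3 ≤ T := by
    have h1 : Q / 2 + 1 ≤ Real.exp (Q / 2) := Real.add_one_le_exp _
    linarith only [hQ1, hT2, h1]
  set E : ℝ := 1 / (4 * L ^ A) + 4 / |t| with hE
  have hE0 : 0 ≤ E := by positivity
  have hpiece : ∀ M a b : ℕ, T / 2 ≤ M → M ≤ a → b ≤ 2 * M →
      ‖∑ n ∈ Ioc a b, ee (t * Real.log (n + β))‖ ≤ E * M := by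
    intro M a b hM ha hb2
    have hMe : Real.exp (Q / 2) ≤ M := hT2.trans hM
    have hM0 : (0 : ℝ) < M := lt_of_lt_of_le (Real.exp_pos _) hMe
    have hM1r : (1 : ℝ) ≤ M := by
      have h1 : Q / 2 + 1 ≤ Real.exp (Q / 2) := Real.add_one_le_exp _
      linarith only [hlo, hhi, hT3, hM]
    have hM1 : 1 ≤ M := by exact_mod_cast hM1r
    have hlogM : Q / 2 ≤ Real.log M := (Real.le_log_iff_exp_le hM0).2 hMe
    have hlogM0 : 0 < Real.log M := by linarith only [hlo, hhi, hQ1, hlogM]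
    have hpow : ∀ s : ℝ, 0 ≤ s → Real.exp (s * (Q / 2)) ≤ (M : ℝ) ^ s := by
      intro s hs
      rw [Real.rpow_def_of_pos hM0]
      apply Real.exp_le_exp.2
      nlinarith only [hlo, hhi, hlogM, hs]
    have hEM : E * M = M / (4 * L ^ A) + 4 * M / |t| := by rw [hE]; ring
    have h4t : 0 ≤ 4 * (M : ℝ) / |t| := by positivity
    rw [hEM]
    rcases le_or_gt ((M : ℝ) ^ (1 / 3 : ℝ)) |t| with h | h
    · rcases le_or_gt |t| ((M : ℝ) ^ 12) with h12 | h12
      · refine (hv M a b β t hM1 ha hb2 hβ hβ1 h h12).trans ?_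
        have e1 : (M : ℝ) ^ (1 - δ0) = M / (M : ℝ) ^ δ0 := by
          rw [Real.rpow_sub hM0, Real.rpow_one]
        have hp := hpow δ0 hδ0.le
        have hp0 : 0 < (M : ℝ) ^ δ0 := Real.rpow_pos_of_pos hM0 _
        have k3' : 4 * C0 * L ^ A ≤ (M : ℝ) ^ δ0 := by
          refine k3.trans ?_
          have : δ0 / 2 * Q = δ0 * (Q / 2) := by ring
          rw [this]
          exact hp
        have h1 : C0 * (M : ℝ) ^ (1 - δ0) ≤ M / (4 * L ^ A) := by
          rw [e1, ← mul_div_assoc, div_le_div_iff₀ hp0 (by positivity)]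
          calc C0 * (M : ℝ) * (4 * L ^ A) = M * (4 * C0 * L ^ A) := by ring
            _ ≤ M * (M : ℝ) ^ δ0 := mul_le_mul_of_nonneg_left k3' hM0.le
        linarith only [h4t, h1]
      · -- large frequency
        set q : ℝ := Real.log |t| / (4 * Real.log M) with hq
        have hlogt : 12 * Real.log M < Real.log |t| := by
          have h1 := Real.log_lt_log (by positivity) h12
          rw [Real.log_pow] at h1
          exact_mod_cast h1
        have hq3 : 3 < q := by
          rw [hq, lt_div_iff₀ (by positivity)]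
          linarith only [hlogt]
        set κ := ⌈q⌉₊ with hκ
        have hκ4 : 4 ≤ κ := by
          have : 3 < κ := Nat.lt_ceil.2 (by exact_mod_cast hq3)
          omega
        have hκq : q ≤ κ := Nat.le_ceil q
        have hκq1 : (κ : ℝ) < q + 1 := Nat.ceil_lt_add_one (by linarith only [hlo, hhi, hq3])
        have hlogt3 : Real.log |t| ≤ 3 * L := by
          have h1 := Real.log_le_log ht0 ht
          rw [Real.log_pow] at h1
          exact_mod_cast h1
        have hR1 : 1 ≤ L ^ (1 - T0.t) := Real.one_le_rpow hL1 (by linarith only [hhi])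
        have hκR : (κ : ℝ) ≤ 3 * L ^ (1 - T0.t) := by
          have h1 : q ≤ 3 / 2 * L ^ (1 - T0.t) := by
            rw [hq, div_le_iff₀ (by positivity)]
            have h2 : L = L ^ (1 - T0.t) * Q := by
              rw [hQ, ← Real.rpow_add hL0]
              rw [show 1 - T0.t + T0.t = 1 by ring, Real.rpow_one]
            have h3 : 0 < L ^ (1 - T0.t) := by linarith only [hlo, hhi, hR1]
            calc Real.log |t| ≤ 3 * L := hlogt3
              _ = 3 * (L ^ (1 - T0.t) * Q) := by rw [← h2]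
              _ ≤ 3 / 2 * L ^ (1 - T0.t) * (4 * Real.log M) := by nlinarith only [hlogM, hlo, hhi, hR1]
          linarith only [hlo, hhi, hq3, hκq1, h1]
        have hκ0 : (0 : ℝ) < κ := by
          have : 0 < κ := by omega
          exact_mod_cast this
        have hCκ : (C * κ) ^ C ≤ (M : ℝ) := by
          refine le_trans ?_ hMe
          have e0 : Real.exp (Q / 2) = Real.exp (1 / 2 * Q) := by congr 1; ring
          rw [e0]
          refine le_trans ?_ k4
          calc (C * κ) ^ C ≤ (3 * C * L ^ (1 - T0.t)) ^ C := by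
                apply Real.rpow_le_rpow (by positivity) _ (by linarith only [hlo, hhi, hC])
                nlinarith only [hκR, hlo, hhi, hC]
            _ = (3 * C) ^ C * (L ^ (1 - T0.t)) ^ C := Real.mul_rpow (by linarith only [hlo, hhi, hC]) (by linarith only [hlo, hhi, hq3, hκq, hκR])
            _ = (3 * C) ^ C * L ^ (C * (1 - T0.t)) := by
                rw [← Real.rpow_mul hL0.le]
                congr 2
                ring
        have hlow : (M : ℝ) ^ (4 * κ - 4) ≤ |t| := by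
          rw [← Real.log_le_log_iff (by positivity) ht0, Real.log_pow]
          have h1 : ((4 * κ - 4 : ℕ) : ℝ) = 4 * κ - 4 := by
            rw [Nat.cast_sub (by omega)]
            push_cast
            ring
          rw [h1]
          have h2 : (4 * (κ : ℝ) - 4) ≤ 4 * q := by linarith only [hκq1]
          have h3 : 4 * q * Real.log M = Real.log |t| := by
            rw [hq]
            field_simp
          nlinarith only [hκq1, h3, hlo, hhi, hQ1, hlogM]
        have hupp : |t| ≤ (M : ℝ) ^ (4 * κ) := by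
          rw [← Real.log_le_log_iff ht0 (by positivity), Real.log_pow]
          push_cast
          have h3 : 4 * q * Real.log M = Real.log |t| := by
            rw [hq]
            field_simp
          nlinarith only [hκq, h3, hlo, hhi, hQ1, hlogM]
        refine (hve κ M a b β t hκ4 hCκ ha hb2 hβ hβ1 hlow hupp).trans ?_
        have e1 : (M : ℝ) ^ (1 - c / (κ : ℝ) ^ 2) = M / (M : ℝ) ^ (c / (κ : ℝ) ^ 2) := by
          rw [Real.rpow_sub hM0, Real.rpow_one]
        have hp0 : 0 < (M : ℝ) ^ (c / (κ : ℝ) ^ 2) := Real.rpow_pos_of_pos hM0 _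
        have hp : 4 * C * L ^ A ≤ (M : ℝ) ^ (c / (κ : ℝ) ^ 2) := by
          refine k5.trans ((Real.exp_le_exp.2 ?_).trans (hpow _ (by positivity)))
          have hW0 : 0 < L ^ (3 * T0.t - 2) := Real.rpow_pos_of_pos hL0 _
          have h9 : (κ : ℝ) ^ 2 ≤ 9 * L ^ (2 * (1 - T0.t)) := by
            calc (κ : ℝ) ^ 2 ≤ (3 * L ^ (1 - T0.t)) ^ 2 := pow_le_pow_left₀ hκ0.le hκR 2
              _ = 9 * (L ^ (1 - T0.t)) ^ 2 := by ring
              _ = 9 * L ^ (2 * (1 - T0.t)) := by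
                  rw [← Real.rpow_natCast, ← Real.rpow_mul hL0.le]
                  congr 2
                  push_cast
                  ring
          have hQW : Q = L ^ (3 * T0.t - 2) * L ^ (2 * (1 - T0.t)) := by
            rw [hQ, ← Real.rpow_add hL0]
            congr 1
            ring
          rw [div_mul_eq_mul_div, div_mul_eq_mul_div, div_le_div_iff₀ (by norm_num) (by positivity)]
          have h10 : L ^ (3 * T0.t - 2) * (κ : ℝ) ^ 2 ≤ 9 * Q := by
            rw [hQW]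
            calc L ^ (3 * T0.t - 2) * (κ : ℝ) ^ 2 ≤ L ^ (3 * T0.t - 2) * (9 * L ^ (2 * (1 - T0.t))) :=
                  mul_le_mul_of_nonneg_left h9 hW0.le
              _ = _ := by ring
          calc c * L ^ (3 * T0.t - 2) * (κ : ℝ) ^ 2 = c * (L ^ (3 * T0.t - 2) * (κ : ℝ) ^ 2) := by ring
            _ ≤ c * (9 * Q) := mul_le_mul_of_nonneg_left h10 hc.le
            _ = c * (Q / 2) * 18 := by ring
        have h1 : C * (M : ℝ) ^ (1 - c / (κ : ℝ) ^ 2) ≤ M / (4 * L ^ A) := by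
          rw [e1, ← mul_div_assoc, div_le_div_iff₀ hp0 (by positivity)]
          calc C * (M : ℝ) * (4 * L ^ A) = M * (4 * C * L ^ A) := by ring
            _ ≤ M * (M : ℝ) ^ (c / (κ : ℝ) ^ 2) := mul_le_mul_of_nonneg_left hp hM0.le
        linarith only [h4t, h1]
    · refine (Pool.Agent.H76.EHB.low_sum t β M a b hM1 ha hb2 hβ hβ1 (abs_pos.1 ht0)).trans ?_
      have e1 : (M : ℝ) ^ (1 / 3 : ℝ) * (M : ℝ) ^ (2 / 3 : ℝ) = M := by
        rw [← Real.rpow_add hM0]
        norm_num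
      have hp := hpow (2 / 3) (by norm_num)
      have k2' : 28 * L ^ A ≤ (M : ℝ) ^ (2 / 3 : ℝ) := by
        refine k2.trans ?_
        have : 1 / 3 * Q = 2 / 3 * (Q / 2) := by ring
        rw [this]
        exact hp
      have hp1 : 0 < (M : ℝ) ^ (1 / 3 : ℝ) := Real.rpow_pos_of_pos hM0 _
      have h1 : 7 * |t| ≤ M / (4 * L ^ A) := by
        rw [le_div_iff₀ (by positivity)]
        calc 7 * |t| * (4 * L ^ A) = |t| * (28 * L ^ A) := by ring
          _ ≤ (M : ℝ) ^ (1 / 3 : ℝ) * (M : ℝ) ^ (2 / 3 : ℝ) :=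
              mul_le_mul h.le k2' (by positivity) hp1.le
          _ = M := e1
      linarith only [h1]
  have hmain := Exp_all T E β t hT3 hE0 hpiece b a
  refine hmain.trans ?_
  have hbK : (b : ℝ) ≤ K := by exact_mod_cast hb
  have e1 : T = K * (1 / 2 * (1 / L ^ A)) := by rw [hT]; ring
  have e2 : 2 * E * b ≤ 2 * E * K := mul_le_mul_of_nonneg_left hbK (by positivity)
  have e3 : 2 * E * K = K * (1 / 2 * (1 / L ^ A)) + 8 * (K / |t|) := by rw [hE]; ring
  have e4 : (K : ℝ) * (100 / |t| + 1 / L ^ A) = 100 * (K / |t|) + K * (1 / L ^ A) := by ring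
  rw [e4]
  have e5 : 0 ≤ (K : ℝ) / |t| := by positivity
  linarith only [e1, e2, e3, e5]

end Pool.Agent.H76.VKT
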