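import Pool.Agent.H43.PL.M06

/-!
# VKT (H97/VK of helper97 with the parameter `T0.t` in place of `9/10`, `t1` in place of `19/20`) VkChiW: `∑_{n≤z} Λ(n) χ(n) n^{it} ≤ z/L^K` for `z ≥ exp(L^{19/20})`

The same proof as in VkChi with `sm_sharp_w`, `ℓ = log 2z ≥ L^{19/20}`, `k = 20 (3κ + K + 3)`.

Proof.  `κ = K + 3`, `k = 10 (3κ + K + 3)`, `sm_sharp k κ B`.  With `a_n = Λ(n) (log n)^k ψ(n) ee(t log n)`, `ψ = ch x χ`, `w = ⌊√z⌋`:
`∑_{w<n≤z} Λ(n) ψ(n) ee(t log n) = ∑_{w<n≤z} a_n (log n)^{-k}`; Abel summation with the decreasing positive weights `(log n)^{-k} ≤ (e0 L/3)^{-k}`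
(`log n ≥ log w ≥ e0 L/3`): at most `4 (3/(e0 L))^k max_{v≤z} ‖∑_{n≤v} a_n‖
 ≤ C z L^{-k} (L^{(9/10)(k+1)} LL^{20(k+1)} L^{3κ} + L^{k+1-κ}) ≤ C z (L^{9/10 - k/10 + 3κ} LL^{20(k+1)} + L^{1-κ}) ≤ z/(4 L^K)`.
The terms `n ≤ w` contribute at most `√z · log z`.  Finally `Λ(n) (χ(n) - ψ(n)) = 0` unless `n` is a power of a prime `≤ y = Yx x` (`ch_apply`): the difference is at most
`∑_{p ≤ y} log z`-ish `≤ y (log z + 1) ≤ z/(4 L^K)` as `log y ≤ L^{9/10}`, `log z ≥ e0 L`.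
(The sum of `Λ` over the powers `≤ z` of one prime is `≤ log z`.)
-/

set_option autoImplicit false

namespace Pool.Agent.H76.VKT

open Finset
open Pool.Agent.H91.EHA
open Pool.Agent.H91.PK (ee)

private theorem VkChiW_abel (f : ℕ → ℂ) (g : ℕ → ℝ) (M : ℝ) (w z : ℕ) (hwz : w < z)
    (hM : ∀ v ≤ z, ‖∑ n ∈ Icc 1 v, f n‖ ≤ M) (hg0 : ∀ n, w < n → 0 ≤ g n)
    (hg : ∀ n, w < n → g (n + 1) ≤ g n) :
    ‖∑ n ∈ Ioc w z, (g n : ℂ) * f n‖ ≤ 2 * M * g (w + 1) := by
  have key : ∀ m : ℕ, w + 1 ≤ m → m ≤ z →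
      ‖∑ n ∈ Ioc w m, (g n : ℂ) * f n - (g m : ℂ) * ∑ n ∈ Icc 1 m, f n‖ ≤
        M * (2 * g (w + 1) - g m) := by
    intro m hm
    induction m, hm using Nat.le_induction with
    | base =>
      intro hz
      rw [sum_Ioc_succ_top le_rfl, Ioc_self, sum_empty, zero_add,
        sum_Icc_succ_top (show 1 ≤ w + 1 by omega)]
      have h1 : (g (w + 1) : ℂ) * f (w + 1) -
          (g (w + 1) : ℂ) * (∑ k ∈ Icc 1 w, f k + f (w + 1)) =
          -((g (w + 1) : ℂ) * ∑ k ∈ Icc 1 w, f k) := by ring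
      rw [h1, norm_neg, norm_mul, Complex.norm_real, Real.norm_of_nonneg (hg0 _ (by omega))]
      have h2 := hM w (by omega)
      have h3 := hg0 (w + 1) (by omega)
      nlinarith only [h2, h3]
    | succ m hm ih =>
      intro hz
      have h1 := ih (by omega)
      rw [sum_Ioc_succ_top (show w ≤ m by omega), sum_Icc_succ_top (show 1 ≤ m + 1 by omega)]
      have h2 : ∑ k ∈ Ioc w m, (g k : ℂ) * f k + (g (m + 1) : ℂ) * f (m + 1) -
          (g (m + 1) : ℂ) * (∑ k ∈ Icc 1 m, f k + f (m + 1)) =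
          (∑ k ∈ Ioc w m, (g k : ℂ) * f k - (g m : ℂ) * ∑ k ∈ Icc 1 m, f k) +
          ((g m - g (m + 1) : ℝ) : ℂ) * ∑ k ∈ Icc 1 m, f k := by
        push_cast; ring
      rw [h2]
      refine (norm_add_le _ _).trans ?_
      rw [norm_mul, Complex.norm_real, Real.norm_of_nonneg (by linarith only [hg, hm, hg m (by omega)])]
      have h3 := hM m (by omega)
      have h4 := hg m (by omega)
      nlinarith only [h1, h3, h4]
  have h1 := key z (by omega) le_rfl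
  have h2 : ∑ n ∈ Ioc w z, (g n : ℂ) * f n =
      (∑ n ∈ Ioc w z, (g n : ℂ) * f n - (g z : ℂ) * ∑ n ∈ Icc 1 z, f n) +
      (g z : ℂ) * ∑ n ∈ Icc 1 z, f n := by ring
  rw [h2]
  refine (norm_add_le _ _).trans ?_
  rw [norm_mul, Complex.norm_real, Real.norm_of_nonneg (hg0 z hwz)]
  have h3 := hM z le_rfl
  have h4 := hg0 z hwz
  nlinarith only [h1, h3, h4]

private theorem VkChiW_ev [T0] (t1 : ℝ) (ht1 : T0.t < t1) (K k : ℕ) (A : ℝ) : ∃ x0 : ℕ, ∀ x : ℕ, x0 ≤ x →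
    (Real.log (Real.log x)) ^ (20 * (k + 1)) ≤ Real.log x ∧ A ≤ Real.log x ∧ 1 ≤ Real.log x ∧
    16 * Real.log x ^ (K + 1) ≤ Real.exp (Real.log x ^ t1 / 2) ∧
    Real.log x ^ T0.t ≤ Real.log x ^ t1 / 2 := by
  have hlo := T0.lo
  have h1 : ∀ᶠ u : ℝ in Filter.atTop, Real.log u ^ (20 * (k + 1)) ≤ u := by
    have h := (Real.isLittleO_pow_log_id_atTop (n := 20 * (k + 1))).bound (show (0 : ℝ) < 1 by norm_num)
    filter_upwards [h, Filter.eventually_ge_atTop (1 : ℝ)] with u hu hu1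
    have hl : 0 ≤ Real.log u := Real.log_nonneg hu1
    rw [Real.norm_of_nonneg (by positivity), one_mul, id, Real.norm_of_nonneg (by linarith only [hu1])] at hu
    exact hu
  have h2 : ∀ᶠ u : ℝ in Filter.atTop, A ≤ u := Filter.eventually_ge_atTop A
  have h3 : ∀ᶠ u : ℝ in Filter.atTop, 1 ≤ u := Filter.eventually_ge_atTop 1
  have h4 : ∀ᶠ u : ℝ in Filter.atTop, 16 * u ^ (K + 1) ≤ Real.exp (u ^ t1 / 2) := by
    have h := (isLittleO_pow_exp_pos_mul_atTop (2 * (K + 1)) (show (0 : ℝ) < 1 / 2 by norm_num)).bound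
      (show (0 : ℝ) < 1 / 16 by norm_num)
    have h' := (tendsto_rpow_atTop (show (0 : ℝ) < t1 by linarith)).eventually h
    filter_upwards [h', Filter.eventually_ge_atTop (1 : ℝ)] with u hu hu1
    have hp : 0 ≤ u ^ t1 := Real.rpow_nonneg (by linarith only [hu1]) _
    rw [Real.norm_of_nonneg (by positivity), Real.norm_of_nonneg (by positivity)] at hu
    have h2 : u ^ (K + 1) ≤ (u ^ t1) ^ (2 * (K + 1)) := by
      rw [← Real.rpow_natCast (u ^ t1), ← Real.rpow_mul (by linarith only [hu1]),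
        ← Real.rpow_natCast u]
      refine Real.rpow_le_rpow_of_exponent_le hu1 ?_
      push_cast
      have : (0 : ℝ) ≤ K := Nat.cast_nonneg _
      nlinarith only [ht1, hlo]
    have e : u ^ t1 / 2 = 1 / 2 * u ^ t1 := by ring
    rw [e]
    linarith only [hu, h2]
  have h5 : ∀ᶠ u : ℝ in Filter.atTop, u ^ T0.t ≤ u ^ t1 / 2 := by
    have h := (tendsto_rpow_atTop (show (0 : ℝ) < t1 - T0.t by linarith)).eventually_ge_atTop 2
    filter_upwards [h, Filter.eventually_ge_atTop (1 : ℝ)] with u hu hu1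
    have e1 : u ^ T0.t * u ^ (t1 - T0.t) = u ^ t1 := by
      rw [← Real.rpow_add (by linarith)]
      congr 1
      ring
    have e2 : 0 ≤ u ^ T0.t := by positivity
    rw [← e1]
    nlinarith only [hu, e2]
  have hlog : Filter.Tendsto (fun x : ℕ => Real.log (x : ℝ)) Filter.atTop Filter.atTop :=
    Real.tendsto_log_atTop.comp tendsto_natCast_atTop_atTop
  have h := hlog.eventually (h1.and (h2.and (h3.and (h4.and h5))))
  rw [Filter.eventually_atTop] at h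
  obtain ⟨x0, hx0⟩ := h
  exact ⟨x0, fun x hx => hx0 x hx⟩

private theorem VkChiW_pow [T0] (t1 : ℝ) (K k κ : ℕ) (hκ : κ = K + 3)
    (hk : (3 * κ + K + 3 : ℝ) ≤ (t1 - T0.t) * k) (L LL9 ℓ : ℝ)
    (hL : 1 ≤ L) (hLL : LL9 ^ (20 * (k + 1)) ≤ L) (hℓ1 : L ^ t1 ≤ ℓ) (hℓ2 : ℓ ≤ 3 * L) :
    (L ^ T0.t) ^ (k + 1) * LL9 ^ (20 * (k + 1)) * L ^ (3 * κ) + ℓ ^ (k + 1) / L ^ κ ≤
      4 * ℓ ^ k / L ^ (K + 1) := by
  have hL0 : 0 < L := by linarith only [hL]
  have hℓ0 : 0 ≤ ℓ := (Real.rpow_nonneg hL0.le _).trans hℓ1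
  have hhi := T0.hi
  have h1 : (L ^ T0.t) ^ (k + 1) * LL9 ^ (20 * (k + 1)) * L ^ (3 * κ) ≤
      ℓ ^ k / L ^ (K + 1) := by
    rw [le_div_iff₀ (by positivity)]
    calc (L ^ T0.t) ^ (k + 1) * LL9 ^ (20 * (k + 1)) * L ^ (3 * κ) * L ^ (K + 1)
        ≤ (L ^ T0.t) ^ (k + 1) * L * L ^ (3 * κ) * L ^ (K + 1) := by gcongr
      _ = L ^ (T0.t * (k + 1 : ℕ) + 1 + (3 * κ : ℕ) + (K + 1 : ℕ)) := by
          rw [Real.rpow_add hL0, Real.rpow_add hL0, Real.rpow_add hL0, Real.rpow_natCast,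
            Real.rpow_natCast, Real.rpow_one, Real.rpow_mul hL0.le, Real.rpow_natCast]
      _ ≤ L ^ (t1 * k) := by
          refine Real.rpow_le_rpow_of_exponent_le hL ?_
          push_cast
          nlinarith only [hk, hhi]
      _ = (L ^ t1) ^ k := by rw [Real.rpow_mul hL0.le, Real.rpow_natCast]
      _ ≤ ℓ ^ k := pow_le_pow_left₀ (Real.rpow_nonneg hL0.le _) hℓ1 _
  have h2 : ℓ ^ (k + 1) / L ^ κ ≤ 3 * ℓ ^ k / L ^ (K + 1) := by
    rw [div_le_div_iff₀ (by positivity) (by positivity)]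
    calc ℓ ^ (k + 1) * L ^ (K + 1) = ℓ ^ k * ℓ * L ^ (K + 1) := by ring
      _ ≤ ℓ ^ k * (3 * L) * L ^ (K + 1) := by gcongr
      _ = 3 * ℓ ^ k * L ^ (K + 2) := by ring
      _ ≤ 3 * ℓ ^ k * L ^ κ := by
          refine mul_le_mul_of_nonneg_left (pow_le_pow_right₀ hL (by omega)) (by positivity)
  have h3 : 4 * ℓ ^ k / L ^ (K + 1) = ℓ ^ k / L ^ (K + 1) + 3 * ℓ ^ k / L ^ (K + 1) := by ring
  rw [h3]
  exact add_le_add h1 h2

private theorem VkChiW_lam_le {n z : ℕ} (hn : 1 ≤ n) (hz : n ≤ z) : Lam n ≤ Real.log z :=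
  (ArithmeticFunction.vonMangoldt_le_log).trans
    (Real.log_le_log (by exact_mod_cast hn) (by exact_mod_cast hz))

private theorem VkChiW_lam_nonneg (n : ℕ) : 0 ≤ Lam n := ArithmeticFunction.vonMangoldt_nonneg

private theorem VkChiW_card (y : ℕ) : ((primorial y).primeFactors.card : ℝ) ≤ y := by
  have h : (primorial y).primeFactors ⊆ Icc 1 y := by
    intro p hp
    have hpp := Nat.prime_of_mem_primeFactors hp
    have hd := Nat.dvd_of_mem_primeFactors hp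
    unfold primorial at hd
    rw [Prime.dvd_finsetProd_iff hpp.prime] at hd
    obtain ⟨q, hq, hpq⟩ := hd
    simp only [mem_filter, mem_range] at hq
    have h2 := (Nat.prime_dvd_prime_iff_eq hpp hq.2).1 hpq
    rw [mem_Icc]
    exact ⟨hpp.one_lt.le, by omega⟩
  have h2 := card_le_card h
  rw [Nat.card_Icc] at h2
  have h3 : (primorial y).primeFactors.card ≤ y := by omega
  exact_mod_cast h3

theorem vk_chi_w_h [T0] (h_sm_sharp_w : sm_sharp_w_P)  (t1 : ℝ) (ht1' : T0.t < t1) (K B : ℕ) : ∃ K' x0 : ℕ, ∀ x : ℕ, x0 ≤ x →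
    ∀ (d : ℕ) (χ : DirichletCharacter ℂ d) (t : ℝ) (z : ℕ), 1 ≤ d → (d : ℝ) ≤ Real.log x ^ B →
    Real.exp (Real.log x ^ t1) ≤ z → z ≤ x ^ 2 → Real.log x ^ K' ≤ |t| → |t| ≤ (x : ℝ) ^ (2 : ℕ) →
    ‖∑ n ∈ Icc 1 z, ((Lam n : ℝ) : ℂ) * χ (n : ZMod d) * ee (t * Real.log n)‖ ≤ z / Real.log x ^ K := by
  obtain ⟨κ, hκ⟩ : ∃ κ : ℕ, κ = K + 3 := ⟨_, rfl⟩
  have hlo := T0.lo
  have hdif : 0 < t1 - T0.t := by linarith only [ht1']
  obtain ⟨k, hk⟩ : ∃ k : ℕ, (3 * κ + K + 3 : ℝ) ≤ (t1 - T0.t) * k := by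
    refine ⟨⌈(3 * κ + K + 3 : ℝ) / (t1 - T0.t)⌉₊, ?_⟩
    have h := Nat.le_ceil ((3 * κ + K + 3 : ℝ) / (t1 - T0.t))
    rw [div_le_iff₀ hdif] at h
    linarith only [h]
  obtain ⟨C, hC, K', x1, hmain⟩ := h_sm_sharp_w t1 ht1' k κ B (by omega)
  obtain ⟨x2, hev⟩ := VkChiW_ev t1 ht1' K k (16 * C * 3 ^ k)
  obtain ⟨x3, hyx⟩ := yx_ev
  refine ⟨K', max (max x1 x2) (max x3 3), fun x hx d χ t z hd hdB hz1 hz2 ht1 ht2 => ?_⟩
  have hx1 : x1 ≤ x := le_trans (le_trans (le_max_left _ _) (le_max_left _ _)) hx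
  have hx2 : x2 ≤ x := le_trans (le_trans (le_max_right _ _) (le_max_left _ _)) hx
  have hx3 : x3 ≤ x := le_trans (le_trans (le_max_left _ _) (le_max_right _ _)) hx
  have hx4 : 3 ≤ x := le_trans (le_trans (le_max_right _ _) (le_max_right _ _)) hx
  obtain ⟨hv1, hv2, hv3, hv4, hv5⟩ := hev x hx2
  have hLL0 : 0 ≤ LL x := by
    have := (hyx x hx3).2.2.2.1
    linarith only [this]
  have hxpos : (0 : ℝ) < x := by
    have : (3 : ℝ) ≤ x := by exact_mod_cast hx4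
    linarith only [this]
  obtain ⟨L, hL⟩ : ∃ L : ℝ, L = Real.log x := ⟨_, rfl⟩
  rw [← hL] at hv1 hv2 hv3 hv4 hv5 ⊢
  have hL0 : 0 < L := by linarith only [hv3]
  -- size of z
  obtain ⟨V, hV⟩ : ∃ V : ℝ, V = L ^ t1 := ⟨_, rfl⟩
  have hV1 : 1 ≤ V := by rw [hV]; exact Real.one_le_rpow hv3 (by linarith only [ht1', hlo])
  rw [← hV] at hv4 hv5
  have hze : Real.exp V ≤ z := by rw [hV, hL]; exact hz1
  have hzpos : (0 : ℝ) < z := lt_of_lt_of_le (Real.exp_pos _) hze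
  have hlogz1 : V ≤ Real.log z := by
    rw [Real.le_log_iff_exp_le hzpos]; exact hze
  have hlogz2 : Real.log z ≤ 2 * L := by
    have h : (z : ℝ) ≤ (x : ℝ) ^ 2 := by exact_mod_cast hz2
    have h2 := Real.log_le_log hzpos h
    rw [Real.log_pow] at h2
    rw [hL]
    exact_mod_cast h2
  have hlogz0 : 0 < Real.log z := lt_of_lt_of_le (by positivity) hlogz1
  have hz1' : 1 ≤ z := by
    have : 0 < z := by exact_mod_cast hzpos
    omega
  -- the cut
  obtain ⟨w, hw⟩ : ∃ w : ℕ, w = Nat.sqrt z := ⟨_, rfl⟩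
  have hw1 : w * w ≤ z := by rw [hw]; exact Nat.sqrt_le z
  have hw2 : z < (w + 1) * (w + 1) := by rw [hw]; exact Nat.lt_succ_sqrt z
  have hexp0 : (0 : ℝ) < Real.exp (V / 2) := Real.exp_pos _
  have hexp2 : Real.exp (V) = Real.exp (V / 2) * Real.exp (V / 2) := by
    rw [← Real.exp_add]; congr 1; ring
  have hLK : 1 ≤ L ^ (K + 1) := one_le_pow₀ hv3
  have hw3 : Real.exp (V / 2) < (w : ℝ) + 1 := by
    have h1 : (z : ℝ) < ((w : ℝ) + 1) * ((w : ℝ) + 1) := by exact_mod_cast hw2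
    have h2 : Real.exp (V / 2) * Real.exp (V / 2) < ((w : ℝ) + 1) * ((w : ℝ) + 1) := by
      rw [← hexp2]; linarith only [hze, h1]
    have h3 : (0 : ℝ) ≤ w := Nat.cast_nonneg _
    exact lt_of_mul_self_lt_mul_self₀ (by linarith only) h2
  have hw4 : 8 * L ^ (K + 1) ≤ w := by linarith only [hv4, hLK, hw3]
  have hwR1 : (8 : ℝ) ≤ w := by linarith only [hv4, hLK, hw3]
  have hw5 : 8 ≤ w := by exact_mod_cast hwR1
  have hwz : w < z := by nlinarith only [hw5, hw1]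
  obtain ⟨ℓ, hℓ⟩ : ∃ ℓ : ℝ, ℓ = Real.log (2 * z) := ⟨_, rfl⟩
  have hℓe : ℓ = Real.log 2 + Real.log z := by
    rw [hℓ, Real.log_mul (by norm_num) hzpos.ne']
  have hl2 : 0 < Real.log 2 := Real.log_pos (by norm_num)
  have hl2' : Real.log 2 ≤ 1 := by
    have := Real.log_two_lt_d9
    linarith only [hl2, this]
  have hℓ1 : V ≤ ℓ := by linarith only [hlogz1, hℓe, hl2]
  have hℓ0 : 0 < ℓ := by linarith only [hV1, hlogz1, hℓe, hl2]
  have hℓ2 : ℓ ≤ 3 * L := by linarith only [hv3, hlogz2, hℓe, hl2']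
  have hlogw : ℓ / 3 ≤ Real.log ((w + 1 : ℕ) : ℝ) := by
    have h1 : (z : ℝ) ≤ ((w + 1 : ℕ) : ℝ) ^ 2 := by
      have h2 : (z : ℝ) < ((w + 1 : ℕ) : ℝ) * ((w + 1 : ℕ) : ℝ) := by exact_mod_cast hw2
      rw [sq]; exact h2.le
    have h2 := Real.log_le_log hzpos h1
    rw [Real.log_pow] at h2
    have h3 : 2 * Real.log 2 ≤ Real.log z := by
      have h4 : (2 : ℝ) ^ 2 ≤ z := by
        have h5 : (w : ℝ) * w ≤ z := by exact_mod_cast hw1
        nlinarith only [hv4, hLK, hw3, h5]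
      have h6 := Real.log_le_log (by norm_num) h4
      rw [Real.log_pow] at h6
      exact_mod_cast h6
    push_cast at h2 ⊢
    linarith only [hℓe, h3, h2]
  -- the three parts
  obtain ⟨b, hb⟩ : ∃ b : ℕ → ℂ, b = fun n => ((Lam n : ℝ) : ℂ) * χ (n : ZMod d) * ee (t * Real.log n) :=
    ⟨_, rfl⟩
  obtain ⟨b', hb'⟩ : ∃ b' : ℕ → ℂ, b' = fun n =>
    ((Lam n : ℝ) : ℂ) * ch x χ (n : ZMod (qm x d)) * ee (t * Real.log n) := ⟨_, rfl⟩
  have hsplit : ∑ n ∈ Icc 1 z, ((Lam n : ℝ) : ℂ) * χ (n : ZMod d) * ee (t * Real.log n) =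
      ∑ n ∈ Icc 1 z, (b n - b' n) + (∑ n ∈ Icc 1 w, b' n + ∑ n ∈ Ioc w z, b' n) := by
    have h1 : ∑ n ∈ Icc 1 w, b' n + ∑ n ∈ Ioc w z, b' n = ∑ n ∈ Icc 1 z, b' n := by
      have h2 : Icc 1 w = Ioc 0 w := by ext a; simp only [mem_Icc, mem_Ioc]; omega
      have h3 : Icc 1 z = Ioc 0 z := by ext a; simp only [mem_Icc, mem_Ioc]; omega
      rw [h2, h3]
      exact sum_Ioc_consecutive _ (Nat.zero_le _) hwz.le
    rw [h1, sum_sub_distrib, hb]
    ring
  have hp1 : ‖∑ n ∈ Icc 1 z, (b n - b' n)‖ ≤ z / (4 * L ^ K) := by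
    calc ‖∑ n ∈ Icc 1 z, (b n - b' n)‖ ≤ ∑ n ∈ Icc 1 z, ‖b n - b' n‖ := norm_sum_le _ _
      _ ≤ ∑ n ∈ Icc 1 z, (if ¬ Nat.Coprime n (primorial (Yx x)) then Lam n else 0) := by
          apply sum_le_sum
          intro n hn
          rw [hb, hb']
          simp only [ch_apply x hd χ n]
          by_cases hc : n.Coprime (primorial (Yx x))
          · rw [if_pos hc, if_neg (not_not.2 hc), sub_self, norm_zero]
          · rw [if_neg hc, if_pos hc, mul_zero, zero_mul, sub_zero]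
            rw [norm_mul, norm_mul, Complex.norm_real, Pool.Agent.H91.PK.LSa_norm_ee, mul_one,
              Real.norm_of_nonneg (VkChiW_lam_nonneg n)]
            have h1 : ‖χ (n : ZMod d)‖ ≤ 1 := χ.norm_le_one _
            nlinarith only [h1, VkChiW_lam_nonneg n]
      _ = ∑ n ∈ (Icc 1 z).filter (fun n => ¬ Nat.Coprime n (primorial (Yx x))), Lam n := by
          rw [sum_filter]
      _ ≤ ((primorial (Yx x)).primeFactors.card : ℝ) * Real.log z :=
          Pool.Agent.H91.PK.DiA_psi_noncoprime hz1' (primorial_pos _)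
      _ ≤ (Yx x : ℝ) * (2 * L) := by
          apply mul_le_mul (VkChiW_card _) hlogz2 hlogz0.le (Nat.cast_nonneg _)
      _ ≤ Real.exp (V / 2) * (2 * L) := by
          apply mul_le_mul_of_nonneg_right _ (by positivity)
          refine (Nat.floor_le (Real.exp_pos _).le).trans ?_
          apply Real.exp_le_exp.2
          unfold L9
          rw [← hL]
          exact hv5
      _ ≤ z / (4 * L ^ K) := by
          rw [le_div_iff₀ (by positivity)]
          calc Real.exp (V / 2) * (2 * L) * (4 * L ^ K)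
              = Real.exp (V / 2) * (8 * L ^ (K + 1)) := by ring
            _ ≤ Real.exp (V / 2) * Real.exp (V / 2) := by
                apply mul_le_mul_of_nonneg_left _ hexp0.le
                linarith only [hv4, hLK]
            _ = Real.exp (V) := hexp2.symm
            _ ≤ z := hze
  have hp2 : ‖∑ n ∈ Icc 1 w, b' n‖ ≤ z / (4 * L ^ K) := by
    calc ‖∑ n ∈ Icc 1 w, b' n‖ ≤ ∑ n ∈ Icc 1 w, ‖b' n‖ := norm_sum_le _ _
      _ ≤ ∑ _n ∈ Icc 1 w, (2 * L) := by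
          apply sum_le_sum
          intro n hn
          rw [mem_Icc] at hn
          rw [hb']
          simp only
          rw [norm_mul, norm_mul, Complex.norm_real, Pool.Agent.H91.PK.LSa_norm_ee, mul_one,
              Real.norm_of_nonneg (VkChiW_lam_nonneg n)]
          have h1 := ch_norm_le x χ (n : ZMod (qm x d))
          have h2 := VkChiW_lam_le hn.1 (hn.2.trans hwz.le)
          have h3 := VkChiW_lam_nonneg n
          nlinarith only [hlogz2, h2, h1, h3]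
      _ = w * (2 * L) := by simp
      _ ≤ z / (4 * L ^ K) := by
          rw [le_div_iff₀ (by positivity)]
          have h1 : (w : ℝ) * w ≤ z := by exact_mod_cast hw1
          calc (w : ℝ) * (2 * L) * (4 * L ^ K) = w * (8 * L ^ (K + 1)) := by ring
            _ ≤ w * w := mul_le_mul_of_nonneg_left hw4 (Nat.cast_nonneg _)
            _ ≤ z := h1
  have hp3 : ‖∑ n ∈ Ioc w z, b' n‖ ≤ z / (2 * L ^ K) := by
    obtain ⟨M, hMdef⟩ : ∃ M : ℝ, M = C * z * (L9 x ^ (k + 1) * LL x ^ (20 * (k + 1)) *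
      Real.log x ^ (3 * κ) + Real.log (2 * z) ^ (k + 1) / Real.log x ^ κ) := ⟨_, rfl⟩
    have h1 := VkChiW_abel (fun n => ((Lam n * Real.log n ^ k : ℝ) : ℂ) *
        ch x χ (n : ZMod (qm x d)) * ee (t * Real.log n))
      (fun n => (Real.log n ^ k)⁻¹) M w z hwz
      (fun v hv => by
        rw [hMdef]
        exact hmain x hx1 d χ t v z hd hdB hz1 hz2 hv ht1 ht2)
      (fun n hn => by
        have : 0 ≤ Real.log (n : ℝ) := Real.log_natCast_nonneg n
        positivity)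
      (fun n hn => by
        have h2 : (1 : ℝ) < n := by
          have : 1 < n := by omega
          exact_mod_cast this
        have h3 : 0 < Real.log (n : ℝ) := Real.log_pos h2
        have h4 : Real.log (n : ℝ) ≤ Real.log ((n + 1 : ℕ) : ℝ) := by
          apply Real.log_le_log (by linarith only [h2])
          push_cast; linarith only
        apply inv_anti₀ (by positivity)
        exact pow_le_pow_left₀ h3.le h4 _)
    have h2 : ∑ n ∈ Ioc w z, b' n = ∑ n ∈ Ioc w z, (((Real.log n ^ k)⁻¹ : ℝ) : ℂ) *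
        (((Lam n * Real.log n ^ k : ℝ) : ℂ) *
        ch x χ (n : ZMod (qm x d)) * ee (t * Real.log n)) := by
      apply sum_congr rfl
      intro n hn
      rw [mem_Ioc] at hn
      have h2 : (1 : ℝ) < n := by
        have : 1 < n := by omega
        exact_mod_cast this
      have h3 : Real.log (n : ℝ) ≠ 0 := (Real.log_pos h2).ne'
      have h4 : (((Real.log n ^ k)⁻¹ : ℝ) : ℂ) * ((Lam n * Real.log n ^ k : ℝ) : ℂ) =
          ((Lam n : ℝ) : ℂ) := by
        rw [← Complex.ofReal_mul]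
        congr 1
        field_simp
      rw [hb']
      simp only
      rw [← mul_assoc, ← mul_assoc, h4]
    rw [h2]
    refine h1.trans ?_
    have hM0 : 0 ≤ M := by
      rw [hMdef]
      have h3 : 0 ≤ L9 x := by unfold L9; rw [← hL]; positivity
      rw [← hL, ← hℓ]
      positivity
    have h3 : ((Real.log ((w + 1 : ℕ) : ℝ)) ^ k)⁻¹ ≤ ((ℓ / 3) ^ k)⁻¹ := by
      apply inv_anti₀ (by positivity)
      exact pow_le_pow_left₀ (by positivity) hlogw _
    have h4 : M ≤ C * z * (4 * ℓ ^ k / L ^ (K + 1)) := by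
      rw [hMdef]
      apply mul_le_mul_of_nonneg_left _ (by positivity)
      unfold L9
      rw [← hL, ← hℓ]
      exact VkChiW_pow t1 K k κ hκ hk L (LL x) ℓ hv3 (by unfold LL; rw [← hL]; exact hv1)
        (by rw [← hV]; exact hℓ1) hℓ2
    calc 2 * M * ((Real.log ((w + 1 : ℕ) : ℝ)) ^ k)⁻¹
        ≤ 2 * (C * z * (4 * ℓ ^ k / L ^ (K + 1))) * ((ℓ / 3) ^ k)⁻¹ := by
          apply mul_le_mul (by linarith only [h4]) h3 (by positivity) (by positivity)
      _ = (8 * C * 3 ^ k) * z / L ^ (K + 1) := by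
          rw [div_pow]
          field_simp
          ring
      _ ≤ (L / 2) * z / L ^ (K + 1) := by
          apply div_le_div_of_nonneg_right _ (by positivity)
          apply mul_le_mul_of_nonneg_right _ hzpos.le
          linarith only [hv2]
      _ = z / (2 * L ^ K) := by
          rw [pow_succ]
          field_simp
  rw [hsplit]
  calc ‖∑ n ∈ Icc 1 z, (b n - b' n) + (∑ n ∈ Icc 1 w, b' n + ∑ n ∈ Ioc w z, b' n)‖
      ≤ ‖∑ n ∈ Icc 1 z, (b n - b' n)‖ + (‖∑ n ∈ Icc 1 w, b' n‖ + ‖∑ n ∈ Ioc w z, b' n‖) :=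
        (norm_add_le _ _).trans (add_le_add_right (norm_add_le _ _) _)
    _ ≤ z / (4 * L ^ K) + (z / (4 * L ^ K) + z / (2 * L ^ K)) :=
        add_le_add hp1 (add_le_add hp2 hp3)
    _ = z / L ^ K := by
        field_simp
        ring

end Pool.Agent.H76.VKT
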